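import Mathlib
import Pool.Agent.Q256.HX.Stm

set_option autoImplicit false

open MvPolynomial

namespace Pool.Agent.Q296.HX

/-- the span of the reduced monomials as functions on `S` -/
noncomputable def W {K ι : Type} [Field K] [Fintype ι] (d : ℕ) (S : Finset (ι → K)) :
    Submodule K (S → K) :=
  Submodule.span K (Set.range fun (e : ι → Fin d) (s : S) => ∏ i, s.1 i ^ (e i : ℕ))

theorem mem_W {K ι : Type} [Field K] [Fintype ι] [DecidableEq ι] (d : ℕ) (S : Finset (ι → K))
    (q : ι → MvPolynomial ι K) (hq : ∀ i, (q i).totalDegree < d)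
    (hS : ∀ s ∈ S, ∀ i, s i ^ d = eval s (q i)) (n : ℕ) :
    ∀ p : MvPolynomial ι K, p.totalDegree ≤ n → (fun s : S => eval s.1 p) ∈ W d S := by
  induction n using Nat.strong_induction_on with
  | _ n ih =>
  intro p hp
  have h1 : (fun s : S => eval s.1 p) =
      ∑ m ∈ p.support, p.coeff m • (fun s : S => ∏ i, s.1 i ^ m i) := by
    funext s
    rw [Finset.sum_apply]
    simp only [Pi.smul_apply, smul_eq_mul]
    rw [eval_eq']
  rw [h1]
  apply Submodule.sum_mem
  intro m hm
  apply Submodule.smul_mem
  by_cases hlt : ∀ i, m i < d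
  · exact Submodule.subset_span ⟨fun i => ⟨m i, hlt i⟩, rfl⟩
  · push Not at hlt
    obtain ⟨i, hi⟩ := hlt
    have hdeg : (m.sum fun _ e => e) ≤ n := (le_totalDegree hm).trans hp
    obtain ⟨m', hm'⟩ : ∃ m' : ι →₀ ℕ, m = m' + Finsupp.single i d := by
      refine ⟨m - Finsupp.single i d, ?_⟩
      rw [tsub_add_cancel_of_le]
      rwa [Finsupp.single_le_iff]
    have hsum : (m.sum fun _ e => e) = (m'.sum fun _ e => e) + d := by
      rw [hm', Finsupp.sum_add_index' (fun _ => rfl) (fun _ _ _ => rfl),
        Finsupp.sum_single_index rfl]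
    have h2 : (fun s : S => ∏ j, s.1 j ^ m j) =
        fun s : S => eval s.1 (monomial m' (1 : K) * q i) := by
      funext s
      rw [eval_mul, eval_monomial, one_mul, ← hS s.1 s.2 i, Finsupp.prod_fintype _ _ (by simp)]
      have h3 : ∀ j, s.1 j ^ m j = s.1 j ^ m' j * (if j = i then s.1 i ^ d else 1) := by
        intro j
        rw [hm', Finsupp.add_apply, pow_add]
        by_cases hj : j = i
        · subst hj
          rw [Finsupp.single_eq_same, if_pos rfl]
        · rw [Finsupp.single_eq_of_ne hj, pow_zero, if_neg hj]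
      simp only [h3]
      rw [Finset.prod_mul_distrib, Finset.prod_ite_eq' Finset.univ i, if_pos (Finset.mem_univ i)]
    rw [h2]
    have hd : 0 < d := (Nat.zero_le _).trans_lt (hq i)
    have hle : (monomial m' (1 : K) * q i).totalDegree ≤ (m'.sum fun _ e => e) + (q i).totalDegree := by
      refine (totalDegree_mul _ _).trans ?_
      gcongr
      exact totalDegree_monomial_le _ _
    exact ih ((m'.sum fun _ e => e) + (q i).totalDegree) (by have := hq i; omega) _ hle

/-- a polynomial separating a point from the others -/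
theorem exists_sep {K ι : Type} [Field K] (S : Finset (ι → K)) (s : ι → K) :
    ∃ p : MvPolynomial ι K, eval s p = 1 ∧ ∀ t ∈ S, t ≠ s → eval t p = 0 := by
  classical
  have h : ∀ t : ι → K, ∃ p : MvPolynomial ι K, t ≠ s → eval s p = 1 ∧ eval t p = 0 := by
    intro t
    by_cases hts : t = s
    · exact ⟨0, fun h => absurd hts h⟩
    · obtain ⟨i, hi⟩ := Function.ne_iff.1 hts
      refine ⟨C (s i - t i)⁻¹ * (X i - C (t i)), fun _ => ⟨?_, ?_⟩⟩
      · rw [eval_mul, eval_C, eval_sub, eval_X, eval_C]
        exact inv_mul_cancel₀ (sub_ne_zero.2 (Ne.symm hi))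
      · rw [eval_mul, eval_C, eval_sub, eval_X, eval_C, sub_self, mul_zero]
  choose p hp using h
  refine ⟨∏ t ∈ S.erase s, p t, ?_, ?_⟩
  · rw [eval_prod]
    exact Finset.prod_eq_one fun t ht => (hp t (Finset.ne_of_mem_erase ht)).1
  · intro t ht hts
    rw [eval_prod]
    exact Finset.prod_eq_zero (Finset.mem_erase.2 ⟨hts, ht⟩) (hp t hts).2

theorem card_le {K ι : Type} [Field K] [Fintype ι] [DecidableEq ι] (d : ℕ) (S : Finset (ι → K))
    (q : ι → MvPolynomial ι K) (hq : ∀ i, (q i).totalDegree < d)
    (hS : ∀ s ∈ S, ∀ i, s i ^ d = eval s (q i)) : S.card ≤ d ^ Fintype.card ι := by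
  classical
  have htop : W d S = ⊤ := by
    rw [eq_top_iff]
    intro g _
    choose p hp1 hp2 using fun s : ι → K => exists_sep S s
    have h1 : g = ∑ s : S, g s • (fun t : S => eval t.1 (p s.1)) := by
      funext t
      rw [Finset.sum_apply, Finset.sum_eq_single t]
      · rw [Pi.smul_apply, hp1, smul_eq_mul, mul_one]
      · intro s _ hst
        rw [Pi.smul_apply, hp2 s.1 t.1 t.2 (fun h => hst (Subtype.ext h.symm)), smul_zero]
      · intro h
        exact absurd (Finset.mem_univ t) h
    rw [h1]
    apply Submodule.sum_mem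
    intro s _
    exact Submodule.smul_mem _ _ (mem_W d S q hq hS _ _ le_rfl)
  have h1 : Module.finrank K (S → K) ≤ Fintype.card (ι → Fin d) := by
    rw [← finrank_top, ← htop]
    exact finrank_range_le_card _
  rw [Module.finrank_fintype_fun_eq_card, Fintype.card_coe] at h1
  rw [Fintype.card_fun, Fintype.card_fin] at h1
  exact h1

theorem hcnt : Pool.Agent.Q256.HX.S_hcnt := by
  intro d N hd
  set M : ℕ := 2 * N.factorial with hM
  have hMpos : 0 < M := by positivity
  refine ⟨d ^ M, ?_⟩
  intro K _ F δ hF _ S hS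
  classical
  have : NeZero M := ⟨hMpos.ne'⟩
  set f : K × K → K × K := fun P => (P.2, F.eval P.2 - δ * P.1) with hf
  have hper : ∀ P ∈ S, f^[M] P = P := by
    intro P hP
    obtain ⟨m, hm1, hm2, hm3⟩ := hS P hP
    have hdvd : m ∣ M := (Nat.dvd_factorial hm1 hm2).mul_left 2
    obtain ⟨k, hk⟩ := hdvd
    rw [hk, Function.iterate_mul]
    exact Function.iterate_fixed hm3 k
  have hx1 : ∀ (P : K × K) (n : ℕ), (f^[n + 1] P).1 = (f^[n] P).2 := by
    intro P n
    rw [Function.iterate_succ_apply']
  have hrec : ∀ (P : K × K) (n : ℕ),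
      F.eval (f^[n + 1] P).1 = (f^[n + 2] P).1 + δ * (f^[n] P).1 := by
    intro P n
    have h1 : (f^[n + 2] P).1 = F.eval (f^[n + 1] P).1 - δ * (f^[n] P).1 := by
      rw [hx1 P (n + 1), Function.iterate_succ_apply']
    rw [h1]; ring
  set y : K × K → ZMod M → K := fun P j => (f^[j.val] P).1 with hy
  have hyn : ∀ P ∈ S, ∀ n : ℕ, y P (n : ZMod M) = (f^[n] P).1 := by
    intro P hP n
    have hp : Function.Periodic (fun n => (f^[n] P).1) M := by
      intro n
      show (f^[n + M] P).1 = (f^[n] P).1
      rw [Function.iterate_add_apply, hper P hP]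
    have h1 : y P (n : ZMod M) = (fun n => (f^[n] P).1) (n % M) := by
      simp only [hy, ZMod.val_natCast]
    exact h1.trans (hp.map_mod_nat n)
  have hyrec : ∀ P ∈ S, ∀ j : ZMod M, F.eval (y P j) = y P (j + 1) + δ * y P (j - 1) := by
    intro P hP j
    have h1 : ((j - 1).val : ZMod M) = j - 1 := ZMod.natCast_zmod_val _
    have h2 : j = (((j - 1).val + 1 : ℕ) : ZMod M) := by
      push_cast
      rw [h1]; ring
    have h3 : j + 1 = (((j - 1).val + 2 : ℕ) : ZMod M) := by
      push_cast
      rw [h1]; ring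
    rw [h3]
    conv_lhs => rw [h2]
    rw [← h1, hyn P hP, hyn P hP, hyn P hP, hrec]
    simp only [h1]
  have hinj : Set.InjOn y S := by
    intro P hP Q hQ hPQ
    have h0 := hyn P hP 0
    have h0' := hyn Q hQ 0
    have h1 := hyn P hP 1
    have h1' := hyn Q hQ 1
    rw [hPQ] at h0 h1
    rw [h0] at h0'
    rw [h1] at h1'
    exact Prod.ext h0' h1'
  have hlc : F.coeff d ≠ 0 := by
    have : F ≠ 0 := by
      rintro rfl
      rw [Polynomial.natDegree_zero] at hF
      omega
    rw [← hF]
    exact Polynomial.leadingCoeff_ne_zero.2 this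
  set q : ZMod M → MvPolynomial (ZMod M) K := fun j =>
    (F.coeff d)⁻¹ • (X (j + 1) + δ • X (j - 1) -
      ∑ l ∈ Finset.range d, F.coeff l • (X j : MvPolynomial (ZMod M) K) ^ l) with hq
  have hqdeg : ∀ j, (q j).totalDegree < d := by
    intro j
    have h1 : q j ∈ restrictTotalDegree (ZMod M) K (d - 1) := by
      apply Submodule.smul_mem
      apply Submodule.sub_mem
      · apply Submodule.add_mem
        · rw [mem_restrictTotalDegree, totalDegree_X]; omega
        · apply Submodule.smul_mem
          rw [mem_restrictTotalDegree, totalDegree_X]; omega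
      · apply Submodule.sum_mem
        intro l hl
        apply Submodule.smul_mem
        rw [mem_restrictTotalDegree, totalDegree_X_pow]
        rw [Finset.mem_range] at hl
        omega
    rw [mem_restrictTotalDegree] at h1
    omega
  have hT := card_le (K := K) (ι := ZMod M) d (S.image y) q hqdeg (by
    intro s hs i
    obtain ⟨P, hP, rfl⟩ := Finset.mem_image.1 hs
    have h1 := hyrec P hP i
    rw [Polynomial.eval_eq_sum_range, hF, Finset.sum_range_succ] at h1
    simp only [hq, smul_eval, eval_sub, eval_add, eval_X, eval_sum, eval_pow]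
    field_simp
    linear_combination h1)
  rw [Finset.card_image_of_injOn hinj, ZMod.card] at hT
  exact hT

end Pool.Agent.Q296.HX
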