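import Mathlib
import Pool.Agent.Q256.HX.Stm

set_option autoImplicit false

open Polynomial

namespace Pool.Agent.Q296.HX

/-- a polynomial mapping infinitely many elements of a subfield into the subfield is defined over
the subfield -/
theorem coeff_mem {K : Type} [Field K] (E : Subfield K) (G : Polynomial K)
    (h : {z : E | G.eval (z : K) ∈ E}.Infinite) : ∀ j, G.coeff j ∈ E := by
  classical
  obtain ⟨s, hs, hcard⟩ := h.exists_subset_card_eq (G.natDegree + 1)
  have hr : ∀ z : E, ∃ w : E, z ∈ s → G.eval (z : K) = w := by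
    intro z
    by_cases hz : z ∈ s
    · exact ⟨⟨_, hs hz⟩, fun _ => rfl⟩
    · exact ⟨0, fun h => absurd h hz⟩
  choose r hr using hr
  set H : Polynomial E := Lagrange.interpolate s id r with hH
  have hinj : Set.InjOn (id : E → E) s := Set.injOn_id _
  have h1 : G = H.map E.subtype := by
    apply Polynomial.eq_of_degrees_lt_of_eval_finset_eq (s.map ⟨_, Subtype.val_injective⟩)
    · rw [Finset.card_map, hcard]
      exact degree_le_natDegree.trans_lt (by exact_mod_cast Nat.lt_succ_self _)
    · rw [Finset.card_map]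
      exact degree_map_le.trans_lt (Lagrange.degree_interpolate_lt r hinj)
    · intro x hx
      obtain ⟨z, hz, rfl⟩ := Finset.mem_map.1 hx
      show G.eval (z : K) = (H.map E.subtype).eval (E.subtype z)
      rw [eval_map_apply, hr z hz]
      have := Lagrange.eval_interpolate_at_node r hinj hz
      rw [id] at this
      rw [hH, this]
      rfl
  intro j
  rw [h1, coeff_map]
  exact (H.coeff j).2

theorem hconj : Pool.Agent.Q256.HX.S_hconj := by
  intro K _ _ E F δ hd hδ x hx hinj hE
  have h1 : ∃ p q : ℤ, x p ≠ x q := by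
    by_contra hcon
    push Not at hcon
    have : (0 : ℤ) = 1 := hinj (by
      show (x 0, x (0 + 1)) = (x 1, x (1 + 1))
      rw [hcon 0 1, hcon (0 + 1) (1 + 1)])
    omega
  obtain ⟨p, q, hpq⟩ := h1
  set a := x p - x q with ha
  set b := x q with hb
  have ha0 : a ≠ 0 := sub_ne_zero.2 hpq
  set G : Polynomial K := C a⁻¹ * (F.comp (C a * X + C b) - C ((1 + δ) * b)) with hG
  have hGe : ∀ z, F.eval (a * z + b) = a * G.eval z + (1 + δ) * b := by
    intro z
    rw [hG]
    simp only [eval_mul, eval_C, eval_sub, eval_comp, eval_add, eval_X]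
    field_simp
    ring
  have hz : ∀ n, (x n - b) / a ∈ E := fun n => hE n q p q hpq
  have hGz : ∀ n, G.eval ((x n - b) / a) ∈ E := by
    intro n
    have h2 := hGe ((x n - b) / a)
    rw [mul_div_cancel₀ _ ha0, sub_add_cancel, ← hx] at h2
    have h3 : G.eval ((x n - b) / a) = (x (n + 1) - b) / a + δ * ((x (n - 1) - b) / a) := by
      field_simp
      linear_combination -h2
    rw [h3]
    exact E.add_mem (hz _) (E.mul_mem hδ (hz _))
  refine ⟨a, b, G, ha0, coeff_mem E G ?_, hGe⟩
  have hinf : (Set.range x).Infinite := by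
    intro hfin
    have : (Set.range fun n => (x n, x (n + 1))).Finite := by
      apply (hfin.prod hfin).subset
      rintro _ ⟨n, rfl⟩
      exact ⟨⟨n, rfl⟩, ⟨n + 1, rfl⟩⟩
    exact Set.infinite_range_of_injective hinj this
  intro hfin
  apply hinf
  have : Set.range x ⊆ (fun z : E => a * (z : K) + b) '' {z : E | G.eval (z : K) ∈ E} := by
    rintro _ ⟨n, rfl⟩
    refine ⟨⟨_, hz n⟩, hGz n, ?_⟩
    show a * ((x n - b) / a) + b = x n
    rw [mul_div_cancel₀ _ ha0, sub_add_cancel]
  exact (hfin.image _).subset this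

end Pool.Agent.Q296.HX
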